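import Pool.Agent.R820.SQ.Cover

/-!
# MP_1fe139_gt: strictly quasi-Lindelöf Hausdorff spaces of large cardinality

For every cardinal `μ` there is a strictly quasi-Lindelöf Hausdorff space `X` with
`χ(X) ≤ 2 ^ (2 ^ ℵ₀)` and `|X| ≥ μ`.
-/

open Set Topology Cardinal

namespace Pool.Agent.Results.MP_1fe139_gt.Counterexample

/-- Strictly quasi-Lindelöf spaces. -/
def StrictlyQuasiLindelof (X : Type) [TopologicalSpace X] : Prop :=
  ∀ (F : Set X) (𝒰 : Set (Set X)) (U : ℕ → Set (Set X)), IsClosed F →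
    (∀ V ∈ 𝒰, IsOpen V) → F ⊆ ⋃₀ 𝒰 → 𝒰 = ⋃ n, U n →
    ∃ V : ℕ → Set (Set X), (∀ n, V n ⊆ U n ∧ (V n).Countable) ∧
      F ⊆ ⋃ n, closure (⋃₀ (V n))

/-- Local bases. -/
def IsLocalBase {X : Type} [TopologicalSpace X] (x : X) (B : Set (Set X)) : Prop :=
  (∀ V ∈ B, IsOpen V ∧ x ∈ V) ∧ ∀ W ∈ 𝓝 x, ∃ V ∈ B, V ⊆ W

/-- The character: `ℵ₀` plus the supremum of the least cardinalities of local bases. -/
noncomputable def chi (X : Type) [TopologicalSpace X] : Cardinal.{0} :=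
  ℵ₀ + ⨆ x : X, sInf {c | ∃ B : Set (Set X), IsLocalBase x B ∧ #B = c}

open Pool.Agent.R820.SQ

theorem sql_P (Y₀ : Type) : StrictlyQuasiLindelof (P Y₀) := by
  intro F 𝒰 U hF hUo hcov hdec
  exact covering hF U
    (fun i W hW => hUo W (by rw [hdec]; exact mem_iUnion.2 ⟨i, hW⟩)) (by
      intro x hx
      obtain ⟨W, hW, hxW⟩ := hcov hx
      rw [hdec] at hW
      obtain ⟨i, hi⟩ := mem_iUnion.1 hW
      exact mem_iUnion.2 ⟨i, W, hi, hxW⟩)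

theorem chi_P (Y₀ : Type) : chi (P Y₀) ≤ 2 ^ ((2 : Cardinal.{0}) ^ (ℵ₀ : Cardinal.{0})) := by
  have h0 : (ℵ₀ : Cardinal.{0}) ≤ 2 ^ ((2 : Cardinal.{0}) ^ (ℵ₀ : Cardinal.{0})) :=
    (Cardinal.cantor ℵ₀).le.trans (Cardinal.cantor _).le
  refine Cardinal.add_le_of_le h0 h0 ?_
  refine ciSup_le' (fun x => ?_)
  obtain ⟨B, hB, hB1, hB2⟩ := exists_base x
  have h1 : sInf {c | ∃ B : Set (Set (P Y₀)), IsLocalBase x B ∧ #B = c} ≤ #B :=
    csInf_le' ⟨B, ⟨hB1, hB2⟩, rfl⟩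
  exact h1.trans (hB.trans mk_index)

theorem mk_P (Y₀ : Type) : #Y₀ ≤ #(P Y₀) := by
  refine Cardinal.mk_le_of_injective (f := fun y => (⟨T.pt y, trivial⟩ : P Y₀)) ?_
  intro y y' h
  have h1 : T.pt y = T.pt y' := congrArg Subtype.val h
  simpa using h1

/-- **Main result.** (1) For every cardinal `μ` there is a strictly quasi-Lindelöf Hausdorff space
`X` with `χ(X) ≤ 2 ^ (2 ^ ℵ₀)` and `|X| ≥ μ`. (2) Hence there is a strictly quasi-Lindelöf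
Hausdorff space `X` with `|X| > 2 ^ χ(X)`. -/
theorem result :
    (∀ μ : Cardinal.{0}, ∃ (X : Type) (_ : TopologicalSpace X), T2Space X ∧
      StrictlyQuasiLindelof X ∧
      chi X ≤ 2 ^ ((2 : Cardinal.{0}) ^ (ℵ₀ : Cardinal.{0})) ∧ μ ≤ #X) ∧
    ∃ (X : Type) (_ : TopologicalSpace X), T2Space X ∧ StrictlyQuasiLindelof X ∧
      2 ^ chi X < #X := by
  have h1 : ∀ μ : Cardinal.{0}, ∃ (X : Type) (_ : TopologicalSpace X), T2Space X ∧
      StrictlyQuasiLindelof X ∧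
      chi X ≤ 2 ^ ((2 : Cardinal.{0}) ^ (ℵ₀ : Cardinal.{0})) ∧ μ ≤ #X := by
    intro μ
    refine ⟨P μ.out, inferInstance, inferInstance, sql_P _, chi_P _, ?_⟩
    have := mk_P μ.out
    rwa [Cardinal.mk_out] at this
  refine ⟨h1, ?_⟩
  obtain ⟨X, hX, hT2, hsq, hchi, hmu⟩ :=
    h1 ((2 : Cardinal.{0}) ^ ((2 : Cardinal.{0}) ^
      ((2 : Cardinal.{0}) ^ ((2 : Cardinal.{0}) ^ (ℵ₀ : Cardinal.{0})))))
  refine ⟨X, hX, hT2, hsq, ?_⟩
  refine lt_of_lt_of_le ?_ hmu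
  exact lt_of_le_of_lt (Cardinal.power_le_power_left two_ne_zero hchi) (Cardinal.cantor _)

end Pool.Agent.Results.MP_1fe139_gt.Counterexample
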